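import Mathlib
import Pool.Agent.H21.Hold.Main

set_option autoImplicit false

namespace Pool.Agent.Results.MP_ef39db_co.CompactCriterion

open Classical Pool.Agent.H37.Star

/-- A finite nonempty poset has property `(∗)` if and only if one linear system with an unknown
for each pair of elements is solvable: `F x y ≥ 0`, row `x` adds up to the number of maximal
chains of the principal ideal of `x`, off the diagonal `F x y` is at most the sum of the entries
`F z y` over the lower covers `z` of `x`, and the rows of the maximal elements add up to the
constant vector `|𝒞(P)| / |P|`. -/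
theorem result (P : Type) [PartialOrder P] [Fintype P] [Nonempty P] :
    PropStar P ↔ ∃ F : P → P → ℝ,
      (∀ x y, 0 ≤ F x y) ∧
      (∀ x, ∑ y, F x y = (numMaxChains (Set.Iic x) : ℝ)) ∧
      (∀ x y, y ≠ x → F x y ≤ ∑ z ∈ Finset.univ.filter (fun z => z ⋖ x), F z y) ∧
      (∀ y, ∑ x ∈ Finset.univ.filter (fun x : P => IsMax x), F x y =
        (numMaxChains P : ℝ) / (Fintype.card P : ℝ)) :=
  Pool.Agent.H21.Hold.star_iff

end Pool.Agent.Results.MP_ef39db_co.CompactCriterion
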