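import Mathlib
import Pool.Agent.H74.PL.Main

set_option autoImplicit false

namespace Pool.Agent.Results.MP_ef39db_co.PartitionLattices

open Pool.Agent.H37.Star

/-- The lattice of all partitions of an `n`-element set, ordered by refinement, has property `(∗)`
if and only if `n ≤ 9`. -/
theorem result (n : ℕ) : PropStar (Finpartition (Finset.univ : Finset (Fin n))) ↔ n ≤ 9 :=
  Pool.Agent.H74.PL.main n

end Pool.Agent.Results.MP_ef39db_co.PartitionLattices
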