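import Mathlib
import Pool.Agent.H37.Star.Main2

set_option autoImplicit false

namespace Pool.Agent.Results.MP_ef39db_co.Powers

open Pool.Agent.H37.Star

/-- A finite graded poset `P` of rank `ℓ` has all its finite powers in the class `(∗)` if and only
if there is a number `t ∈ [0,1]` such that every `x` of rank `j` lies on exactly
`|𝒞(P)| / (|P| C(ℓ,j) t^j (1-t)^(ℓ-j))` maximal chains. -/
theorem result (P : Type) [PartialOrder P] [Finite P] [Nonempty P] (r : P → ℕ) (ℓ : ℕ)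
    (h : IsGradedBy P r ℓ) :
    (∀ n : ℕ, 1 ≤ n → PropStar (Fin n → P)) ↔
      ∃ t : ℝ, 0 ≤ t ∧ t ≤ 1 ∧ ∀ x : P,
        (numHit P {x} : ℝ) * (Nat.card P : ℝ) * (ℓ.choose (r x) : ℝ) * t ^ (r x) *
          (1 - t) ^ (ℓ - r x) = (numMaxChains P : ℝ) :=
  powers h

end Pool.Agent.Results.MP_ef39db_co.Powers
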