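import Mathlib
import Pool.Agent.H74.PC.Main

set_option autoImplicit false

namespace Pool.Agent.Results.MP_ef39db_co.ProductsOfChains

open Pool.Agent.H37.Star

/-- Let `r_1, …, r_n ≥ 1` with `r_1 + … + r_n ≥ 2400`. The product of the chains with `r_i + 1`
elements has property `(∗)` if and only if all `r_i` are `1`, or `n = 1`, or `n = 2` and one of the
two chains has two elements. -/
theorem result (n : ℕ) (r : Fin n → ℕ) (hr : ∀ i, 1 ≤ r i) (hs : 2400 ≤ ∑ i, r i) :
    PropStar ((i : Fin n) → Fin (r i + 1)) ↔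
      (∀ i, r i = 1) ∨ n = 1 ∨ (n = 2 ∧ ∃ i, r i = 1) :=
  Pool.Agent.H74.PC.main n r hr hs

end Pool.Agent.Results.MP_ef39db_co.ProductsOfChains
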